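import Pool.Agent.K7.H12.FI.Conc
import Pool.Agent.K7.H42.FI.Split

/-!
Project FI (MP_5b35db_co), JOB ROW.
-/

set_option autoImplicit false
set_option linter.unusedSectionVars false

namespace Pool.Agent.K7.H42.FI

open Pool.Agent.K7.H15.Irr Pool.Agent.K7.H12.FI

/-! ### Basic facts on the graph -/

theorem mis_symm {X : Type} (P : Par X) (a b : Lab) : Mis P a b ↔ Mis P b a := by
  cases a <;> cases b <;> simp only [Mis]
  omega

theorem adj_symm {X : Type} (G : OrientedGraph X) {a b : X} (h : G.underlying.Adj a b) :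
    G.underlying.Adj b a := Or.symm h

theorem mem_nb {X : Type} {F : OrientedGraph X} {P : Par X} {h : IsHom F F P.ρ} {a c : Vt P} :
    c ∈ nb (gph F P h) a ↔ (img F P.ρ h).underlying.Adj (cl a) (cl c) ∧ ¬ Mis P (lab a) (lab c) := by
  constructor
  · rintro (⟨h1, h2⟩ | ⟨h1, h2⟩)
    · exact ⟨Or.inl h1, h2⟩
    · exact ⟨Or.inr h1, fun h3 => h2 ((mis_symm P _ _).1 h3)⟩
  · rintro ⟨h1 | h1, h2⟩
    · exact Or.inl ⟨h1, h2⟩
    · exact Or.inr ⟨h1, fun h3 => h2 ((mis_symm P _ _).1 h3)⟩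

theorem over_gph {X : Type} (F : OrientedGraph X) (P : Par X) (h : IsHom F F P.ρ) :
    Over (img F P.ρ h) cl (gph F P h) := fun _ _ h1 => h1.1

theorem ok_mono {X : Type} {F : OrientedGraph X} {P : Par X} {h : IsHom F F P.ρ} {A A' a B : ℕ}
    {x : X → ℕ} (hA : A' ≤ A) (hOk : Ok F P h A a B x) : Ok F P h A' a B x :=
  { hOk with
    ha := hA.trans hOk.ha
    hb := (Nat.mul_le_mul_right _ hA).trans hOk.hb
    hB := (Nat.mul_le_mul_right _ (Nat.mul_le_mul_right _ hA)).trans hOk.hB }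

instance {X : Type} [Finite X] (P : Par X) : Finite (Vt P) := by
  unfold Vt; infer_instance

theorem card_cls_le {X : Type} [Finite X] (P : Par X) : Nat.card (Cls P) ≤ Nat.card X :=
  Nat.card_le_card_of_injective Subtype.val Subtype.val_injective

/-- the class of a vertex with the block and the column replaced -/
def mv {X : Type} {P : Par X} (c' : Fin P.b) (j' : Fin P.m) : Vt P → Vt P
  | ⟨g, Sum.inl q⟩ => ⟨g, Sum.inl q⟩
  | ⟨g, Sum.inr (Sum.inl (_, l))⟩ => ⟨g, Sum.inr (Sum.inl (c', l))⟩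
  | ⟨g, Sum.inr (Sum.inr _)⟩ => ⟨g, Sum.inr (Sum.inr j')⟩

/-- is it a column hub -/
def isW {X : Type} {P : Par X} : Vt P → Prop
  | ⟨_, Sum.inl _⟩ => False
  | ⟨_, Sum.inr (Sum.inl _)⟩ => False
  | ⟨_, Sum.inr (Sum.inr _)⟩ => True

/-- the level of a row hub -/
def lv {X : Type} {P : Par X} : Vt P → ℕ
  | ⟨_, Sum.inl _⟩ => 0
  | ⟨_, Sum.inr (Sum.inl (_, l))⟩ => l
  | ⟨_, Sum.inr (Sum.inr _)⟩ => 0

/-- every vertex is a bulk vertex, a row hub or a column hub -/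
theorem vt_cases {X : Type} {P : Par X} (y : Vt P) :
    (∃ g i j, y = bk g i j) ∨ (∃ g c l, y = tt g c l) ∨ (∃ g j, y = ww g j) := by
  rcases y with ⟨g, ⟨i, j⟩ | ⟨c, l⟩ | j⟩
  · exact Or.inl ⟨g, i, j, rfl⟩
  · exact Or.inr (Or.inl ⟨g, c, l, rfl⟩)
  · exact Or.inr (Or.inr ⟨g, j, rfl⟩)

theorem mv_tt {X : Type} {P : Par X} (c' : Fin P.b) (j' : Fin P.m) (g : Cls P) (c : Fin P.b)
    (l : Fin (P.R g.1)) : mv c' j' (tt g c l) = tt g c' l := rfl

theorem mv_ww {X : Type} {P : Par X} (c' : Fin P.b) (j' : Fin P.m) (g : Cls P) (j : Fin P.m) :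
    mv c' j' (ww g j) = ww g j' := rfl

theorem cl_mv {X : Type} {P : Par X} (c' : Fin P.b) (j' : Fin P.m) (y : Vt P) :
    cl (mv c' j' y) = cl y := by
  rcases y with ⟨g, ⟨i, j⟩ | ⟨c, l⟩ | j⟩ <;> rfl

theorem err_succ (X V : Type) (q : ℕ) :
    err X V (q + 1) = err X V q * ((Nat.card X : ℝ) / (Nat.card V : ℝ)) := by
  unfold err; rw [pow_succ]

/-- there is an adjacent class -/
theorem exists_adj_cls {X : Type} [Finite X] {F : OrientedGraph X} (hF : F.WeaklyConnected)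
    (h3 : 3 ≤ Nat.card X) (P : Par X) (h : IsHom F F P.ρ) (g : Cls P) :
    ∃ g' : Cls P, (img F P.ρ h).underlying.Adj g.1 g'.1 := by
  obtain ⟨x, hx⟩ := g.2
  have : Nontrivial X := by
    rw [← Finite.one_lt_card_iff_nontrivial]; omega
  obtain ⟨y, hy⟩ := hF.preconnected.exists_adj_of_nontrivial x
  refine ⟨⟨P.ρ y, ⟨y, rfl⟩⟩, ?_⟩
  rcases hy with hy | hy
  · exact Or.inl ⟨x, y, hy, hx, rfl⟩
  · exact Or.inr ⟨y, x, hy, rfl, hx⟩

/-! ### JOB ROW -/

/-- the numerical inequality -/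
theorem row_num {k n a m b B xb i : ℕ} {A : ℕ} {C c : ℝ} (hk : 1 ≤ k) (hC : 0 < C)
    (hA1 : 1 ≤ A) (hA : (k : ℝ) ^ 2 * C * (xb + 2) < c * A) (ha : A ≤ a) (hb : A * a ^ 2 ≤ b)
    (hB : 1 ≤ B) (hm : b * B ≤ m) (hn : ((a * m : ℕ) : ℝ) ≤ n) (hi : i ≤ xb * a) :
    ((k : ℝ) * i * (C * (a * B)) + k * (C * (a + m))) * k < c * n := by
  have hA' : (1 : ℝ) ≤ A := by exact_mod_cast hA1
  have ha' : (A : ℝ) ≤ a := by exact_mod_cast ha
  have hb' : (A : ℝ) * a ^ 2 ≤ b := by exact_mod_cast hb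
  have hB' : (1 : ℝ) ≤ B := by exact_mod_cast hB
  have hm' : (b : ℝ) * B ≤ m := by exact_mod_cast hm
  have hn' : (a : ℝ) * m ≤ n := by exact_mod_cast hn
  have hi' : (i : ℝ) ≤ xb * a := by exact_mod_cast hi
  have hk' : (1 : ℝ) ≤ k := by exact_mod_cast hk
  have ha1 : (1 : ℝ) ≤ a := hA'.trans ha'
  have e1 : (A : ℝ) * (a ^ 2 * B) ≤ m := by
    calc (A : ℝ) * (a ^ 2 * B) = ((A : ℝ) * a ^ 2) * B := by ring
      _ ≤ (b : ℝ) * B := by gcongr
      _ ≤ (m : ℝ) := hm'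
  have hm0 : (0 : ℝ) ≤ m := by positivity
  have e2 : (m : ℝ) ≤ a * m := by nlinarith
  have e3 : (A : ℝ) * (a ^ 2 * B) ≤ n := e1.trans (e2.trans hn')
  have e4 : (A : ℝ) * a ≤ m := by
    have : (a : ℝ) ≤ a ^ 2 * B := by nlinarith [mul_le_mul ha1 hB' (by norm_num) (by linarith)]
    calc (A : ℝ) * a ≤ A * (a ^ 2 * B) := by gcongr
      _ ≤ m := e1
  have e5 : (A : ℝ) * a ≤ n := e4.trans (e2.trans hn')
  have e6 : (A : ℝ) * m ≤ n := by
    calc (A : ℝ) * m ≤ a * m := by gcongr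
      _ ≤ n := hn'
  have hA0 : (0 : ℝ) < A := by linarith
  have h7 : (((k : ℝ) * i * (C * (a * B)) + k * (C * (a + m))) * k) * A ≤
      (k : ℝ) ^ 2 * C * (xb + 2) * n := by
    have t1 : (k : ℝ) * i * (C * (a * B)) * k * A ≤ (k : ℝ) ^ 2 * C * xb * n := by
      calc (k : ℝ) * i * (C * (a * B)) * k * A ≤ (k : ℝ) * (xb * a) * (C * (a * B)) * k * A := by
            gcongr
        _ = (k : ℝ) ^ 2 * C * xb * (A * (a ^ 2 * B)) := by ring
        _ ≤ (k : ℝ) ^ 2 * C * xb * n := by gcongr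
    have t2 : (k : ℝ) * (C * (a + m)) * k * A ≤ (k : ℝ) ^ 2 * C * 2 * n := by
      calc (k : ℝ) * (C * (a + m)) * k * A = (k : ℝ) ^ 2 * C * (A * a + A * m) := by ring
        _ ≤ (k : ℝ) ^ 2 * C * (n + n) := by gcongr
        _ = (k : ℝ) ^ 2 * C * 2 * n := by ring
    calc (((k : ℝ) * i * (C * (a * B)) + k * (C * (a + m))) * k) * A =
        (k : ℝ) * i * (C * (a * B)) * k * A + (k : ℝ) * (C * (a + m)) * k * A := by ring
      _ ≤ (k : ℝ) ^ 2 * C * xb * n + (k : ℝ) ^ 2 * C * 2 * n := add_le_add t1 t2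
      _ = (k : ℝ) ^ 2 * C * (xb + 2) * n := by ring
  have hn0 : (0 : ℝ) < n := by nlinarith
  have h8 : (k : ℝ) ^ 2 * C * (xb + 2) * n < c * A * n := by gcongr
  have h9 : (((k : ℝ) * i * (C * (a * B)) + k * (C * (a + m))) * k) * A < (c * n) * A := by
    calc _ ≤ _ := h7
      _ < c * A * n := h8
      _ = (c * n) * A := by ring
  exact lt_of_mul_lt_mul_right h9 hA0.le

/-- the moved neighbours -/
theorem row_moved {X : Type} {F : OrientedGraph X} {P : Par X} {h : IsHom F F P.ρ} {g : Cls P}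
    {i i' : Fin (P.r g.1)} {j j' : Fin P.m} (hi : i < i') {y : Vt P} (h1 : y ∈ nb (gph F P h) (bk g i' j'))
    (h2 : y ∉ nb (gph F P h) (bk g i j)) :
    (∃ g1 c l, y = tt g1 c l ∧ P.blk j = c ∧ (l : ℕ) ≤ i ∧ P.blk j ≠ P.blk j') ∨
    (∃ g1, y = ww g1 j ∧ (j : ℕ) ≠ j') := by
  rw [mem_nb] at h1 h2
  have h3 : Mis P (lab (bk g i j)) (lab y) := by
    by_contra h4
    exact h2 ⟨h1.1, h4⟩
  rcases vt_cases y with ⟨g1, i1, j1, rfl⟩ | ⟨g1, c1, l1, rfl⟩ | ⟨g1, j1, rfl⟩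
  · exact absurd h3 (by simp [lab, bk, Mis])
  · left
    obtain ⟨h5, h6⟩ : P.blk j = c1 ∧ (l1 : ℕ) ≤ i := h3
    refine ⟨g1, c1, l1, rfl, h5, h6, fun h7 => h1.2 ?_⟩
    exact (⟨by rw [← h7, h5], h6.trans (Fin.le_def.1 hi.le)⟩ : P.blk j' = c1 ∧ (l1 : ℕ) ≤ i')
  · right
    have h5 : (j : ℕ) = j1 := h3
    have h6 : j = j1 := Fin.ext h5
    subst h6
    exact ⟨g1, rfl, fun h7 => h1.2 (show (j' : ℕ) = j from h7.symm)⟩

/-- the sum of the sizes of the symmetric differences over the moved neighbours -/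
theorem row_sum {X : Type} [Finite X] {P : Par X} {g : Cls P} {i : Fin (P.r g.1)}
    {j : Fin P.m} (I : Finset (Vt P)) (f : Vt P → ℝ) (T W : ℝ) (hT : 0 ≤ T) (hW : 0 ≤ W)
    (hI : ∀ y ∈ I, (∃ g1 c l, y = tt g1 c l ∧ P.blk j = c ∧ (l : ℕ) ≤ i ∧ f y ≤ T) ∨
      (∃ g1, y = ww g1 j ∧ f y ≤ W)) :
    ∑ y ∈ I, f y ≤ (Nat.card X : ℝ) * (P.r g.1 : ℕ) * T + (Nat.card X : ℝ) * W := by
  classical
  have : Fintype (Cls P) := Fintype.ofFinite _
  have hcls : ((Finset.univ : Finset (Cls P)).card : ℝ) ≤ Nat.card X := by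
    rw [Finset.card_univ, ← Nat.card_eq_fintype_card]
    exact_mod_cast card_cls_le P
  rw [← Finset.sum_filter_add_sum_filter_not I (fun y => isW y) f, add_comm]
  refine add_le_add ?_ ?_
  · have h1 : ∑ y ∈ I with ¬ isW y, f y ≤ ∑ y ∈ I with ¬ isW y, T := by
      refine Finset.sum_le_sum fun y hy => ?_
      rw [Finset.mem_filter] at hy
      rcases hI y hy.1 with ⟨g1, c, l, -, -, -, h⟩ | ⟨g1, rfl, -⟩
      · exact h
      · exact absurd trivial hy.2
    have h2 : (I.filter (fun y => ¬ isW y)).card ≤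
        ((Finset.univ : Finset (Cls P)) ×ˢ Finset.range (P.r g.1)).card := by
      refine Finset.card_le_card_of_injOn (fun y => (y.1, lv y)) ?_ ?_
      · intro y hy
        rw [Finset.mem_coe, Finset.mem_filter] at hy
        rcases hI y hy.1 with ⟨g1, c, l, rfl, -, hl, -⟩ | ⟨g1, rfl, -⟩
        · simp only [Finset.mem_coe, Finset.mem_product, Finset.mem_univ, Finset.mem_range,
            true_and]
          exact lt_of_le_of_lt hl i.2
        · exact absurd trivial hy.2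
      · intro y hy y' hy' hyy
        rw [Finset.mem_coe, Finset.mem_filter] at hy hy'
        rcases hI y hy.1 with ⟨g1, c, l, rfl, hc, hl, -⟩ | ⟨g1, rfl, -⟩
        · rcases hI y' hy'.1 with ⟨g2, c2, l2, rfl, hc2, hl2, -⟩ | ⟨g2, rfl, -⟩
          · have e1 : g1 = g2 := congrArg Prod.fst hyy
            subst e1
            have e2 : (l : ℕ) = l2 := congrArg Prod.snd hyy
            have e3 : l = l2 := Fin.ext e2
            have e4 : c = c2 := Fin.ext (hc.symm.trans hc2)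
            rw [e3, e4]
          · exact absurd trivial hy'.2
        · exact absurd trivial hy.2
    rw [Finset.card_product, Finset.card_range] at h2
    rw [Finset.sum_const, nsmul_eq_mul] at h1
    refine h1.trans (mul_le_mul_of_nonneg_right ?_ hT)
    have h3 : ((I.filter (fun y => ¬ isW y)).card : ℝ) ≤
        ((Finset.univ : Finset (Cls P)).card : ℝ) * (P.r g.1 : ℕ) := by exact_mod_cast h2
    exact h3.trans (mul_le_mul_of_nonneg_right hcls (by positivity))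
  · have h1 : ∑ y ∈ I with isW y, f y ≤ ∑ y ∈ I with isW y, W := by
      refine Finset.sum_le_sum fun y hy => ?_
      rw [Finset.mem_filter] at hy
      rcases hI y hy.1 with ⟨g1, c, l, rfl, -, -, h⟩ | ⟨g1, -, h⟩
      · exact absurd hy.2 id
      · exact h
    have h2 : (I.filter (fun y => isW y)).card ≤ (Finset.univ : Finset (Cls P)).card := by
      refine Finset.card_le_card_of_injOn (fun y => y.1) (fun _ _ => Finset.mem_univ _) ?_
      intro y hy y' hy' hyy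
      rw [Finset.mem_coe, Finset.mem_filter] at hy hy'
      rcases hI y hy.1 with ⟨g1, c, l, rfl, hc, hl, -⟩ | ⟨g1, rfl, -⟩
      · exact absurd hy.2 id
      · rcases hI y' hy'.1 with ⟨g2, c2, l2, rfl, hc2, hl2, -⟩ | ⟨g2, rfl, -⟩
        · exact absurd hy'.2 id
        · have e1 : g1 = g2 := hyy
          rw [e1]
    rw [Finset.sum_const, nsmul_eq_mul] at h1
    refine h1.trans (mul_le_mul_of_nonneg_right ?_ hW)
    have h3 : ((I.filter (fun y => isW y)).card : ℝ) ≤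
        ((Finset.univ : Finset (Cls P)).card : ℝ) := by exact_mod_cast h2
    exact h3.trans hcls

/-- JOB ROW -/
theorem row (hD : StDiff) (hC : StChain) (hS : StSplit) (hL : StLB1) (hZ : StSize) : StRow := by
  classical
  intro X _ F hF h3
  obtain ⟨c, hc, A1, hL1⟩ := hL X F hF h3
  obtain ⟨C, hC0, A2, hZ1⟩ := hZ X F hF h3
  obtain ⟨A3, hA3⟩ := exists_nat_gt ((Nat.card X : ℝ) ^ 2 * C * ((xb X : ℕ) + 2) / c)
  refine ⟨max (max A1 A2) (max A3 1), ?_⟩
  intro P h a B x hOk g i i' j j' hi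
  have hOk1 := ok_mono ((le_max_left A1 A2).trans (le_max_left _ _)) hOk
  have hOk2 := ok_mono ((le_max_right A1 A2).trans (le_max_left _ _)) hOk
  have hOk3 := ok_mono (le_max_right (max A1 A2) (max A3 1)) hOk
  obtain ⟨hm0, hn0, hbB, -, -, han, -, -, hst, hsw, -, -⟩ := hZ1 P h a B x hOk2
  have : Nonempty (Vt P) := ⟨bk g i j⟩
  have hv : (bk g i j : Vt P) ≠ bk g i' j' := by
    intro e
    have := congrArg lab e
    simp only [lab, bk] at this
    rw [Lab.bulk.injEq] at this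
    exact absurd (Fin.ext this.1) hi.ne
  have hdiff := hD X (Vt P) F (img F P.ρ h) cl (gph F P h) (over_gph F P h) (bk g i j)
    (bk g i' j') hv rfl
  have hcb : P.blk j' < P.b := hOk.blk_lt j' j'.2
  obtain ⟨g1, hg1⟩ := exists_adj_cls hF h3 P h g
  have hR : P.r g.1 ≤ P.R g1.1 := hOk.Rup g1 g (adj_symm _ hg1)
  have hi1 : (i : ℕ) + 1 < P.R g1.1 := lt_of_lt_of_le (lt_of_le_of_lt (Fin.lt_def.1 hi) i'.2) hR
  set e : Vt P := tt g1 ⟨P.blk j', hcb⟩ ⟨(i : ℕ) + 1, hi1⟩ with he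
  set U : Set (Vt P) := nb (gph F P h) (bk g i j) ∩ nb (gph F P h) (bk g i' j') with hU
  set I : Finset (Vt P) := (Set.toFinite {y | y ∈ nb (gph F P h) (bk g i' j') ∧
    y ∉ nb (gph F P h) (bk g i j)}).toFinset with hI
  have hIm : ∀ y, y ∈ I ↔ y ∈ nb (gph F P h) (bk g i' j') ∧ y ∉ nb (gph F P h) (bk g i j) := by
    intro y; rw [hI, Set.Finite.mem_toFinset, Set.mem_setOf_eq]
  have hIc : ∀ y ∈ I, (∃ g1 c l, y = tt g1 c l ∧ P.blk j = c ∧ (l : ℕ) ≤ i ∧
      P.blk j ≠ P.blk j') ∨ (∃ g1, y = ww g1 j ∧ (j : ℕ) ≠ j') := by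
    intro y hy
    rw [hIm] at hy
    exact row_moved hi hy.1 hy.2
  -- the moved neighbours
  have hmv1 : ∀ y ∈ I, mv ⟨P.blk j', hcb⟩ j' y ∉ nb (gph F P h) (bk g i' j') := by
    intro y hy hy2
    rw [mem_nb] at hy2
    rcases hIc y hy with ⟨g2, c2, l, rfl, -, hl, -⟩ | ⟨g2, rfl, -⟩
    · exact hy2.2 (⟨rfl, hl.trans (Fin.le_def.1 hi.le)⟩ : P.blk j' = P.blk j' ∧ (l : ℕ) ≤ i')
    · exact hy2.2 (rfl : (j' : ℕ) = j')
  have hmv2 : ∀ y ∈ I, mv ⟨P.blk j', hcb⟩ j' y ∈ nb (gph F P h) (bk g i j) := by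
    intro y hy
    have hy1 := ((hIm y).1 hy).1
    rw [mem_nb] at hy1 ⊢
    rw [cl_mv]
    refine ⟨hy1.1, ?_⟩
    rcases hIc y hy with ⟨g2, c2, l, rfl, -, hl, hne⟩ | ⟨g2, rfl, hne⟩
    · intro hm
      have hm' : P.blk j = P.blk j' ∧ (l : ℕ) ≤ i := hm
      exact hne hm'.1
    · intro hm
      exact hne hm
  have hhub : ∀ y ∈ I, (∀ g2 i2 j2, y ≠ bk g2 i2 j2) ∧
      (∀ g2 i2 j2, mv ⟨P.blk j', hcb⟩ j' y ≠ bk g2 i2 j2) := by
    intro y hy
    rcases hIc y hy with ⟨g2, c2, l, rfl, -, hl, hne⟩ | ⟨g2, rfl, hne⟩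
    · exact ⟨fun _ _ _ e => by simpa [lab, bk, tt] using congrArg lab e,
        fun _ _ _ e => by simpa [lab, bk, tt, mv] using congrArg lab e⟩
    · exact ⟨fun _ _ _ e => by simpa [lab, bk, ww] using congrArg lab e,
        fun _ _ _ e => by simpa [lab, bk, ww, mv] using congrArg lab e⟩
  have hch := hC X (Vt P) F (img F P.ρ h) cl (gph F P h) (over_gph F P h) (bk g i j) {bk g i j}
    (E1 (bk g i j) (bk g i' j')) (Finset.mem_singleton_self _)
    (fun φ _ hE b hb => by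
      rw [Finset.mem_singleton] at hb
      rw [hb]
      exact hE.1)
    (Vt P) I id (mv ⟨P.blk j', hcb⟩ j') U
    (by
      intro y hy
      have hy1 := (hIm y).1 hy
      refine ⟨fun hh => hy1.2 hh.1, fun hh => hmv1 y hy hh.2, ?_, ?_, (cl_mv _ _ y).symm, ?_, ?_⟩
      · rw [Finset.mem_singleton]; exact (hhub y hy).1 _ _ _
      · rw [Finset.mem_singleton]; exact (hhub y hy).2 _ _ _
      · intro b hb hb'
        rw [Finset.mem_singleton] at hb
        exact absurd hb hb'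
      · rintro φ ⟨⟨x0, hx0⟩, hφ⟩ τ hτ
        refine ⟨⟨x0, ?_⟩, ?_⟩
        · rw [Function.comp_apply, hx0]
          exact hτ _ ((hhub y hy).1 _ _ _).symm ((hhub y hy).2 _ _ _).symm
        · rintro ⟨x1, hx1⟩
          rw [Function.comp_apply] at hx1
          have h5 := hτ (bk g i' j') ((hhub y hy).1 _ _ _).symm ((hhub y hy).2 _ _ _).symm
          exact hφ ⟨x1, τ.injective (hx1.trans h5.symm)⟩)
    (fun y _ y' _ hyy => hyy)
    (by
      intro y hy y' hy' hyy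
      rw [Finset.mem_coe] at hy hy'
      rcases hIc y hy with ⟨g2, c2, l, rfl, hc2, hl, hne⟩ | ⟨g2, rfl, hne⟩
      · rcases hIc y' hy' with ⟨g3, c3, l3, rfl, hc3, hl3, hne3⟩ | ⟨g3, rfl, hne3⟩
        · have e1 : c2 = c3 := Fin.ext (hc2.symm.trans hc3)
          have e2 : g2 = g3 := congrArg Sigma.fst hyy
          subst e2
          have e3 := congrArg lab hyy
          simp only [mv, tt, lab] at e3
          rw [Lab.t.injEq] at e3
          rw [e1, Fin.ext e3.2]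
        · have e3 := congrArg lab hyy
          simp [mv, tt, ww, lab] at e3
      · rcases hIc y' hy' with ⟨g3, c3, l3, rfl, hc3, hl3, hne3⟩ | ⟨g3, rfl, hne3⟩
        · have e3 := congrArg lab hyy
          simp [mv, tt, ww, lab] at e3
        · have e2 : g2 = g3 := congrArg Sigma.fst hyy
          rw [e2])
    (fun y hy y' hy' hyy => by
      have h5 := ((hIm y).1 hy).1
      rw [id_eq] at hyy
      rw [hyy] at h5
      exact hmv1 y' hy' h5)
  have hU1 : U ∪ id '' (I : Set (Vt P)) = nb (gph F P h) (bk g i' j') := by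
    ext y
    rw [Set.image_id]
    constructor
    · rintro (hy | hy)
      · exact hy.2
      · exact ((hIm y).1 hy).1
    · intro hy
      by_cases hy2 : y ∈ nb (gph F P h) (bk g i j)
      · exact Or.inl ⟨hy2, hy⟩
      · exact Or.inr ((hIm y).2 ⟨hy, hy2⟩)
  rw [hU1] at hch
  have hle : (i : ℕ) + 1 ≤ i' := Fin.lt_def.1 hi
  have heU : e ∉ U ∪ mv ⟨P.blk j', hcb⟩ j' '' (I : Set (Vt P)) := by
    rintro (h5 | ⟨y, hy, hye⟩)
    · have h6 := h5.2
      rw [mem_nb] at h6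
      exact h6.2 (⟨rfl, hle⟩ : P.blk j' = P.blk j' ∧ (i : ℕ) + 1 ≤ i')
    · rcases hIc y hy with ⟨g3, c3, l3, rfl, hc3, hl3, hne3⟩ | ⟨g3, rfl, hne3⟩
      · have e3 := congrArg lab hye
        rw [he] at e3
        simp only [mv, tt, lab] at e3
        rw [Lab.t.injEq] at e3
        omega
      · have e3 := congrArg lab hye
        rw [he] at e3
        simp [mv, tt, ww, lab] at e3
  have hee : e ∈ nb (gph F P h) (bk g i j) := by
    rw [mem_nb]
    refine ⟨hg1, fun hm => ?_⟩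
    have hm' : P.blk j = P.blk j' ∧ (i : ℕ) + 1 ≤ i := hm
    omega
  have hsub : insert e (U ∪ mv ⟨P.blk j', hcb⟩ j' '' (I : Set (Vt P))) ⊆
      nb (gph F P h) (bk g i j) := by
    rintro y (rfl | hy | ⟨y, hy, rfl⟩)
    · exact hee
    · exact hy.1
    · exact hmv2 y hy
  have hs1 := (hS X (Vt P) F (img F P.ρ h) cl (gph F P h) (bk g i j)
    (E1 (bk g i j) (bk g i' j'))).1 _ _ hsub
  have hes : e ≠ bk g i j := by
    intro h5
    have := congrArg lab h5
    rw [he] at this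
    simp [lab, bk, tt] at this
  have hs2 := (hS X (Vt P) F (img F P.ρ h) cl (gph F P h) (bk g i j)
    (E1 (bk g i j) (bk g i' j'))).2.1 _ e heU hes
  have hempty : {y : Vt P | (∃ g i j, y = bk g i j) ∧
      (img F P.ρ h).underlying.Adj (cl (bk g i j)) (cl y) ∧
      y ∉ insert e (U ∪ mv ⟨P.blk j', hcb⟩ j' '' (I : Set (Vt P)))} = ∅ := by
    rw [Set.eq_empty_iff_forall_notMem]
    rintro y ⟨⟨g2, i2, j2, rfl⟩, hy2, hy3⟩
    apply hy3
    refine Or.inr (Or.inl ⟨?_, ?_⟩)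
    · rw [mem_nb]
      exact ⟨hy2, by simp [lab, bk, Mis]⟩
    · rw [mem_nb]
      exact ⟨hy2, by simp [lab, bk, Mis]⟩
  have hl := hL1 P h a B x hOk1 (bk g i j) (bk g i' j') e
    (insert e (U ∪ mv ⟨P.blk j', hcb⟩ j' '' (I : Set (Vt P)))) hv rfl hg1
    (Set.mem_insert _ _) (by
      rw [hempty, Set.ncard_empty]
      push_cast
      positivity)
  -- the error
  have hsum : ∑ y ∈ I, ((sd (gph F P h) (id y) (mv ⟨P.blk j', hcb⟩ j' y)).ncard : ℝ) ≤
      (Nat.card X : ℝ) * (P.r g.1 : ℕ) * (C * (a * B)) + (Nat.card X : ℝ) * (C * (a + P.m)) := by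
    refine row_sum (i := i) (j := j) I _ _ _ (by positivity) (by positivity) ?_
    intro y hy
    rcases hIc y hy with ⟨g2, c2, l, rfl, hc2, hl, hne⟩ | ⟨g2, rfl, hne⟩
    · exact Or.inl ⟨g2, c2, l, rfl, hc2, hl, hst g2 c2 _ l l⟩
    · refine Or.inr ⟨g2, rfl, (hsw g2 j j').trans ?_⟩
      have h5 : |((j : ℕ) : ℝ) - ((j' : ℕ) : ℝ)| ≤ P.m := by
        have h6 : ((j : ℕ) : ℝ) ≤ P.m := by exact_mod_cast j.2.le
        have h7 : ((j' : ℕ) : ℝ) ≤ P.m := by exact_mod_cast j'.2.le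
        have h8 : (0 : ℝ) ≤ ((j : ℕ) : ℝ) := by positivity
        have h9 : (0 : ℝ) ≤ ((j' : ℕ) : ℝ) := by positivity
        rw [abs_le]
        constructor <;> linarith
      gcongr
  rw [← Finset.sum_mul, Finset.card_singleton] at hch
  have hnum := row_num (k := Nat.card X) (n := Nat.card (Vt P)) (a := a) (m := P.m) (b := P.b)
    (B := B) (xb := xb X) (i := P.r g.1) (A := max A3 1) (C := C) (c := c) (by omega) hC0
    (le_max_right _ _)
    (by
      rw [div_lt_iff₀ hc] at hA3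
      have : (A3 : ℝ) ≤ ((max A3 1 : ℕ) : ℝ) := by exact_mod_cast le_max_left A3 1
      nlinarith)
    hOk3.ha hOk3.hb
    (by
      have h5 := hOk3.hB
      have h6 := hOk3.ha
      have h7 : 1 ≤ max A3 1 := le_max_right _ _
      have h8 : 0 < P.b := by omega
      have h9 : 0 < max A3 1 * a * P.b := by
        have : 0 < a := by omega
        positivity
      omega)
    hbB han (by
      rw [hOk.hr g]
      exact Nat.mul_le_mul_right _ (hOk.hx g).2)
  have hn : (0 : ℝ) < Nat.card (Vt P) := by exact_mod_cast hn0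
  have hk : (0 : ℝ) < Nat.card X := by
    have : 0 < Nat.card X := by omega
    exact_mod_cast this
  have herr2 : 0 < err X (Vt P) 2 := by unfold err; positivity
  have h10 : (∑ y ∈ I, ((sd (gph F P h) (id y) (mv ⟨P.blk j', hcb⟩ j' y)).ncard : ℝ)) *
      err X (Vt P) (1 + 2) < c * err X (Vt P) 2 := by
    calc (∑ y ∈ I, ((sd (gph F P h) (id y) (mv ⟨P.blk j', hcb⟩ j' y)).ncard : ℝ)) *
          err X (Vt P) (1 + 2) ≤ ((Nat.card X : ℝ) * (P.r g.1 : ℕ) * (C * (a * B)) +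
            (Nat.card X : ℝ) * (C * (a + P.m))) * err X (Vt P) (1 + 2) :=
          mul_le_mul_of_nonneg_right hsum (err_nonneg _ _ _)
      _ = (((Nat.card X : ℝ) * (P.r g.1 : ℕ) * (C * (a * B)) +
            (Nat.card X : ℝ) * (C * (a + P.m))) * Nat.card X) / Nat.card (Vt P) *
            err X (Vt P) 2 := by
          rw [show (1 + 2 : ℕ) = 2 + 1 from rfl, err_succ]
          ring
      _ < c * err X (Vt P) 2 := by
          refine mul_lt_mul_of_pos_right ?_ herr2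
          rw [div_lt_iff₀ hn]
          exact hnum
  linarith

end Pool.Agent.K7.H42.FI
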